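import Mathlib
import Pool.Agent.H72R2.Gar

set_option autoImplicit false

namespace Pool.Agent.Results.MP_89e4fc_al.PolyGrowth

open Pool.Agent.H72R2.Gar

/-- The real bound along the recursion. -/
theorem exists_bd {M : Type} [Monoid M] {d : M} (h : IsGar d) {D : ℕ} (hD0 : 0 < D)
    (hD : Norm d D) (k : ℕ) (hk : D < k) :
    ∃ B : ℕ, Bd d k B ∧
      (B : ℝ) ≤ ((D : ℝ) + 1) ^ (D + 1) *
        ((k : ℝ) - D) ^ (Real.log ((D : ℝ) + 1) / Real.log (1 + 1 / (D : ℝ))) := by
  set β : ℝ := Real.log ((D : ℝ) + 1) / Real.log (1 + 1 / (D : ℝ)) with hβ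
  have hDr : (0 : ℝ) < D := by exact_mod_cast hD0
  have hq : (1 : ℝ) < 1 + 1 / (D : ℝ) := by
    have : 0 < 1 / (D : ℝ) := by positivity
    linarith
  have hlogq : 0 < Real.log (1 + 1 / (D : ℝ)) := Real.log_pos hq
  have hβ0 : 0 ≤ β := by
    rw [hβ]
    exact div_nonneg (Real.log_nonneg (by linarith)) hlogq.le
  have hqβ : (1 + 1 / (D : ℝ)) ^ β = (D : ℝ) + 1 := by
    rw [Real.rpow_def_of_pos (by linarith), hβ, mul_div_cancel₀ _ hlogq.ne',
      Real.exp_log (by linarith)]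
  induction k using Nat.strong_induction_on with
  | _ k ih =>
    set S : ℕ := D * (k + 1) / (D + 1) with hS
    have hS1 : S * (D + 1) ≤ D * (k + 1) := Nat.div_mul_le_self _ _
    have hS2 : D * (k + 1) < (S + 1) * (D + 1) := by
      have := Nat.lt_div_mul_add (a := D * (k + 1)) (b := D + 1) (by omega)
      rw [← hS] at this
      calc D * (k + 1) < S * (D + 1) + (D + 1) := this
        _ = (S + 1) * (D + 1) := by ring
    have hSk : S < k := by
      by_contra hcon
      push Not at hcon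
      have h1 : k * (D + 1) ≤ S * (D + 1) := Nat.mul_le_mul hcon le_rfl
      nlinarith
    have hcond : (k - S) * D ≤ S := by
      obtain ⟨r, hr⟩ := Nat.exists_eq_add_of_le hSk.le
      rw [hr, Nat.add_sub_cancel_left]
      rw [hr] at hS2
      nlinarith
    have hx1 : (1 : ℝ) ≤ (k : ℝ) - D := by
      have : (D : ℝ) + 1 ≤ k := by exact_mod_cast hk
      linarith
    by_cases hSD : S ≤ D
    · refine ⟨(D + 1) ^ S * (D + 1), h.bd_rec hD hcond (h.bd_pow hD S), ?_⟩
      have h1 : ((D : ℝ) + 1) ^ S ≤ ((D : ℝ) + 1) ^ D :=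
        pow_le_pow_right₀ (by linarith) hSD
      have h2 : (1 : ℝ) ≤ ((k : ℝ) - D) ^ β := Real.one_le_rpow hx1 hβ0
      push_cast
      calc ((D : ℝ) + 1) ^ S * ((D : ℝ) + 1) ≤ ((D : ℝ) + 1) ^ D * ((D : ℝ) + 1) :=
            mul_le_mul_of_nonneg_right h1 (by linarith)
        _ = ((D : ℝ) + 1) ^ (D + 1) * 1 := by rw [pow_succ, mul_one]
        _ ≤ _ := mul_le_mul_of_nonneg_left h2 (by positivity)
    · push Not at hSD
      obtain ⟨B, hB1, hB2⟩ := ih S hSk hSD
      refine ⟨B * (D + 1), h.bd_rec hD hcond hB1, ?_⟩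
      have hx' : (0 : ℝ) < (S : ℝ) - D := by
        have : (D : ℝ) < S := by exact_mod_cast hSD
        linarith
      have h3 : (1 + 1 / (D : ℝ)) * ((S : ℝ) - D) ≤ (k : ℝ) - D := by
        have h4 : (S : ℝ) * (D + 1) ≤ D * (k + 1) := by exact_mod_cast hS1
        have h5 : (1 + 1 / (D : ℝ)) * ((S : ℝ) - D) = (D + 1) * ((S : ℝ) - D) / D := by
          field_simp
        rw [h5, div_le_iff₀ hDr]
        nlinarith
      have h6 : ((D : ℝ) + 1) * ((S : ℝ) - D) ^ β ≤ ((k : ℝ) - D) ^ β := by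
        have h7 : ((1 + 1 / (D : ℝ)) * ((S : ℝ) - D)) ^ β ≤ ((k : ℝ) - D) ^ β :=
          Real.rpow_le_rpow (by positivity) h3 hβ0
        rwa [Real.mul_rpow (by linarith) hx'.le, hqβ] at h7
      push_cast
      calc (B : ℝ) * ((D : ℝ) + 1)
          ≤ (((D : ℝ) + 1) ^ (D + 1) * ((S : ℝ) - D) ^ β) * ((D : ℝ) + 1) :=
            mul_le_mul_of_nonneg_right hB2 (by linarith)
        _ = ((D : ℝ) + 1) ^ (D + 1) * (((D : ℝ) + 1) * ((S : ℝ) - D) ^ β) := by ring
        _ ≤ _ := mul_le_mul_of_nonneg_left h6 (by positivity)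

/-- **Polynomial growth of the atom length of the powers of a Garside element.**
Let `M` be a Garside monoid with Garside element `d` (hypotheses as in the problem) and let
`D ≥ 1` be an upper bound of the atom length of `d` (for instance the atom length itself).
Then every factorisation of `d ^ k`, `k ≥ 1`, into non-identity elements has fewer than
`(D + 1) ^ (D + 1) * k ^ β` factors, where `β = log (D + 1) / log (1 + 1 / D)`. -/
theorem result :
    ∀ (M : Type) [Monoid M] (d : M),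
      (∀ a b c : M, a * b = a * c → b = c) →
      (∀ a b c : M, b * a = c * a → b = c) →
      (∃ len : M → ℕ, (∀ a b : M, len a + len b ≤ len (a * b)) ∧
          ∀ a : M, len a = 0 → a = 1) →
      (∀ a b : M, ∃ m : M, (∃ c, m = a * c) ∧ (∃ c, m = b * c) ∧
          ∀ x : M, (∃ c, x = a * c) → (∃ c, x = b * c) → ∃ c, x = m * c) →
      (∀ a b : M, ∃ g : M, (∃ c, a = g * c) ∧ (∃ c, b = g * c) ∧
          ∀ x : M, (∃ c, a = x * c) → (∃ c, b = x * c) → ∃ c, g = x * c) →
      (∀ a b : M, ∃ m : M, (∃ c, m = c * a) ∧ (∃ c, m = c * b) ∧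
          ∀ x : M, (∃ c, x = c * a) → (∃ c, x = c * b) → ∃ c, x = c * m) →
      (∀ a b : M, ∃ g : M, (∃ c, a = c * g) ∧ (∃ c, b = c * g) ∧
          ∀ x : M, (∃ c, a = c * x) → (∃ c, b = c * x) → ∃ c, g = c * x) →
      (∀ x : M, (∃ c, d = x * c) ↔ (∃ c, d = c * x)) →
      Set.Finite {x : M | ∃ c, d = x * c} →
      Submonoid.closure {x : M | ∃ c, d = x * c} = ⊤ →
      ∀ D : ℕ, 0 < D →
        (∀ n : ℕ, ∀ f : Fin n → M, (∀ i, f i ≠ 1) → (List.ofFn f).prod = d → n ≤ D) →
        ∀ k n : ℕ, 1 ≤ k → ∀ f : Fin n → M,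
          (∀ i, f i ≠ 1) → (List.ofFn f).prod = d ^ k →
            (n : ℝ) < ((D : ℝ) + 1) ^ (D + 1) *
              (k : ℝ) ^ (Real.log ((D : ℝ) + 1) / Real.log (1 + 1 / (D : ℝ))) := by
  intro M _ d hlc hrc hat hlcm _ _ _ hbal _ hgen D hD0 hDf k n hk f hf hprod
  have h : IsGar d := ⟨hlc, hrc, hat, hlcm, hbal, hgen⟩
  have hD : Norm d D := by
    intro l hl hlp
    refine hDf l.length l.get (fun i => hl _ (List.get_mem _ _)) ?_
    rw [List.ofFn_get]
    exact hlp
  -- the chain of prefix products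
  set l : List M := List.ofFn f with hl
  have hlen : l.length = n := by simp [hl]
  have hl1 : ∀ x ∈ l, x ≠ 1 := by
    intro x hx
    rw [hl, List.mem_ofFn] at hx
    obtain ⟨i, rfl⟩ := hx
    exact hf i
  have hchain : Chain (fun i => (l.take i).prod) n := by
    intro i hi
    have hi' : i < l.length := by omega
    have h1 : (l.take (i + 1)).prod = (l.take i).prod * l[i] := by
      rw [List.take_succ_eq_append_getElem hi', List.prod_append, List.prod_singleton]
    refine ⟨⟨l[i], h1⟩, fun heq => ?_⟩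
    dsimp only at heq
    rw [h1] at heq
    refine hl1 l[i] (List.getElem_mem _) (hlc (l.take i).prod _ _ ?_)
    rw [mul_one]
    exact heq.symm
  have hend : (l.take n).prod ∣ (l.take 0).prod * d ^ k := by
    rw [← hlen, List.take_length, List.take_zero, List.prod_nil, one_mul, hprod]
  have hDr : (0 : ℝ) < D := by exact_mod_cast hD0
  have hβ0 : 0 ≤ Real.log ((D : ℝ) + 1) / Real.log (1 + 1 / (D : ℝ)) := by
    refine div_nonneg (Real.log_nonneg (by linarith)) (Real.log_nonneg ?_)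
    have : 0 ≤ 1 / (D : ℝ) := by positivity
    linarith
  have hk1 : (1 : ℝ) ≤ k := by exact_mod_cast hk
  by_cases hkD : k ≤ D
  · have h1 : n < (D + 1) ^ k := h.bd_pow hD k _ n hchain hend
    have h2 : (n : ℝ) < ((D : ℝ) + 1) ^ k := by exact_mod_cast h1
    have h3 : ((D : ℝ) + 1) ^ k ≤ ((D : ℝ) + 1) ^ (D + 1) :=
      pow_le_pow_right₀ (by linarith) (by omega)
    have h4 : (1 : ℝ) ≤ (k : ℝ) ^ (Real.log ((D : ℝ) + 1) / Real.log (1 + 1 / (D : ℝ))) :=
      Real.one_le_rpow hk1 hβ0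
    calc (n : ℝ) < ((D : ℝ) + 1) ^ k := h2
      _ ≤ ((D : ℝ) + 1) ^ (D + 1) * 1 := by rw [mul_one]; exact h3
      _ ≤ _ := mul_le_mul_of_nonneg_left h4 (by positivity)
  · push Not at hkD
    obtain ⟨B, hB1, hB2⟩ := exists_bd h hD0 hD k hkD
    have h1 : n < B := hB1 _ n hchain hend
    have h2 : (n : ℝ) < B := by exact_mod_cast h1
    have h3 : (0 : ℝ) ≤ (k : ℝ) - D := by
      have : (D : ℝ) < k := by exact_mod_cast hkD
      linarith
    refine h2.trans_le (hB2.trans (mul_le_mul_of_nonneg_left ?_ (by positivity)))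
    exact Real.rpow_le_rpow h3 (by linarith) hβ0

end Pool.Agent.Results.MP_89e4fc_al.PolyGrowth
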